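import Pool.Agent.H33.TJ

/-!
Maps from complex tori and Kobayashi hyperbolicity for projective varieties with a generically finite
rational map to a projective manifold with positive 2-forms and a metric of nonpositive curvature.
-/

set_option autoImplicit false

open LinearAlgebra.Projectivization MvPolynomial Topology
open Pool.Agent.W602.GT Pool.Agent.N155.BB Pool.Agent.H33

/-- Let `X = {F = 0}` be a projective manifold of dimension `d` whose 2-forms are positive (this holds
if `Λ² Ω` is ample; if `d = 2`, if the canonical bundle is ample), with a nondegenerate complex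
Finsler metric `Φ` of nonpositive curvature (for example a Hermitian metric with nonpositive
holomorphic sectional curvature). Let `V = {G = 0}` be a projective variety of any dimension, possibly
singular, and let `P` be a rational map from `V` to `X` which is defined, with finite fibres, outside
the closed subset `B = V ∩ {H = 0}` (for example a finite morphism, with `B` empty, or a generically
finite rational map).

(1) There are finitely many nonconstant doubly periodic holomorphic maps `h` from the plane to `V` such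
that all nonconstant holomorphic maps `g` from the plane to `V` which are not contained in `B`, and
are doubly periodic or have bounded derivative, are `g z = h (a z + b)` for some `h` in the list and
some numbers `a ≠ 0`, `b`.

(2) Therefore `V` is Kobayashi hyperbolic if and only if `B` is Kobayashi hyperbolic and all
holomorphic maps from one-dimensional complex tori to `V` are constant.

(3) If there is a nonconstant holomorphic map `g` from the plane to `V`, then there is one, `g'`, in
the Zariski closure of the image of `g`, which is doubly periodic, or is contained in `B` and has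
bounded derivative. -/
theorem Pool.Agent.Results.MP_45e720_ag.GenericallyFinite.result {n d : ℕ} {ι κ : Type}
    (F : ι → MvPolynomial (Fin (n + 1)) ℂ) (hX : ProjManifold F d)
    (η : κ → (Fin (n + 1) → ℂ) → (Fin (n + 1) → ℂ) → (Fin (n + 1) → ℂ) → ℂ)
    (hη : PositiveTwoForms (Cone F) ∅ d η)
    (Φ : (Fin (n + 1) → ℂ) → (Fin (n + 1) → ℂ) → ℝ) (hΦ : NonposMetric (Cone F) d Φ)
    (hnd : Nondegenerate (Cone F) d Φ) (m : ℕ) (ι' κ' : Type)
    (G : ι' → MvPolynomial (Fin (m + 1)) ℂ) (P : Fin (n + 1) → MvPolynomial (Fin (m + 1)) ℂ)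
    (H : κ' → MvPolynomial (Fin (m + 1)) ℂ) (hG : ∀ j, IsForm (G j)) (hH : ∀ k, IsForm (H k))
    (hP : RationalMap G F P) (hfin : FiniteOff G P H) :
    (∃ S : Finset (ℂ → ℙ ℂ (Fin (m + 1) → ℂ)),
      (∀ h ∈ S, HolIn G h ∧ DoublyPeriodic h ∧ ¬ ∀ z w, h z = h w) ∧
      ∀ g, HolIn G g → (∃ z k, eval (g z).rep (H k) ≠ 0) → (¬ ∀ z w, g z = g w) →
        (DoublyPeriodic g ∨ ∃ C, DerBetween 0 C g) →
        ∃ h ∈ S, ∃ a b : ℂ, a ≠ 0 ∧ ∀ z, g z = h (a * z + b)) ∧
    (KobayashiHyperbolic G ↔ KobayashiHyperbolic (Sum.elim G H) ∧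
      ∀ g, HolIn G g → DoublyPeriodic g → ∀ z w, g z = g w) ∧
    ∀ g, HolIn G g → (¬ ∀ z w, g z = g w) → ∃ g', HolIn G g' ∧ (¬ ∀ z w, g' z = g' w) ∧
      (DoublyPeriodic g' ∨ ((∀ z k, eval (g' z).rep (H k) = 0) ∧ ∃ C, DerBetween 0 C g')) ∧
      ∀ E : MvPolynomial (Fin (m + 1)) ℂ, IsForm E → (∀ z, eval (g z).rep E = 0) →
        ∀ z, eval (g' z).rep E = 0 := by
  obtain ⟨S, h1, h2, -⟩ := nondegenerate_geo hX (form_G0 n) (by rw [cone_G0]; exact hη) (noBC_G0 F)
    hΦ hnd
  have hS : ∀ h ∈ S, DoublyPeriodic h := fun h hh => (h1 h hh).2.1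
  obtain ⟨h3, h4⟩ := off_kob hG hX hΦ hnd hP hH hfin hS h2
  refine ⟨?_, h3, h4⟩
  obtain ⟨S', h5, h6⟩ := off_curves hX hΦ hnd hP hH hfin hS h2 (G := G)
  exact ⟨S', fun h hh => ⟨(h5 h hh).1, (h5 h hh).2.1, (h5 h hh).2.2.1⟩, h6⟩
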