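import Pool.Agent.H33.VP

/-!
Points at which varieties with a generically finite rational map to a projective manifold with positive
2-forms and a Hermitian metric of nonpositive curvature, or to a product of such manifolds, are
hyperbolic.
-/

set_option autoImplicit false

open LinearAlgebra.Projectivization MvPolynomial Topology
open Pool.Agent.W602.GT Pool.Agent.N155.BB Pool.Agent.H33
open Pool.Agent.N154.GG (kobayashi projDist)

/-- For each `a` in the finite set `J` let `X_a = {F a = 0}` be a projective manifold of dimension `d a`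
with positive 2-forms and a metric of nonpositive holomorphic sectional curvature (`NonposManifold`).

(1) For each `a` there is a finite set `S` of nonconstant doubly periodic holomorphic maps `h` from the
plane to `X_a`, whose images are, if `d a ≥ 2`, contained in proper algebraic subsets `X_a ∩ {E = 0}`,
with the following property. Let `V = {G = 0}` be a projective variety, of any dimension and possibly
singular, and let `P` be a rational map from `V` to `X_a` which is defined, with finite fibres, outside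
the closed subset `B = V ∩ {H = 0}` (for example a generically finite rational map). Then `V` is
Kobayashi hyperbolic modulo `B` and the inverse images of the curves `h (ℂ)`: if `v` is a point of `V`
outside `B` such that `P (v)` is not in these curves, then for every `ε > 0` the Kobayashi
pseudodistance, in `V`, of `v` and the points `q` of `V` at a distance of at least `ε` from `v` is at
least a positive number.

(2) Let `V = {G = 0}` be an irreducible projective algebraic set, possibly singular, and let `P a` be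
rational maps from `V` to `X_a`, such that the map `(P a)_a` from `V` to the product of the `X_a` is
generically finite (not necessarily dominant). Suppose that for each `a` either the image of `P a` has
dimension at least two, or `X_a` is Brody hyperbolic (for instance a curve of genus at least two) and
`P a` is somewhere defined. Then there is a form `T` which is not identically zero on `V`, such that `V`
is Kobayashi hyperbolic modulo `{T = 0}`: if `v` is a point of `V` with `T (v) ≠ 0`, then for every
`ε > 0` the Kobayashi pseudodistance, in `V`, of `v` and the points `q` of `V` at a distance of at least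
`ε` from `v` is at least a positive number. -/
theorem Pool.Agent.Results.MP_45e720_ag.HyperbolicModulo.result {J : Type} [Fintype J]
    {n d : J → ℕ} {ι : J → Type} (F : ∀ a, ι a → MvPolynomial (Fin (n a + 1)) ℂ)
    (hX : ∀ a, NonposManifold (F a) (d a)) :
    (∀ a, ∃ S : Finset (ℂ → ℙ ℂ (Fin (n a + 1) → ℂ)),
      (∀ h ∈ S, HolIn (F a) h ∧ DoublyPeriodic h ∧ ∃ z w, h z ≠ h w) ∧
      (2 ≤ d a → ∀ x ∈ Cone (F a), ∃ E : MvPolynomial (Fin (n a + 1)) ℂ, IsForm E ∧
        (¬ ∀ᶠ y in 𝓝[Cone (F a)] x, eval y E = 0) ∧ ∀ h ∈ S, ∀ z, eval (h z).rep E = 0) ∧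
      ∀ (m : ℕ) (ι' κ' : Type) (G : ι' → MvPolynomial (Fin (m + 1)) ℂ)
        (P : Fin (n a + 1) → MvPolynomial (Fin (m + 1)) ℂ) (H : κ' → MvPolynomial (Fin (m + 1)) ℂ),
        (∀ j, IsForm (G j)) → (∀ k, IsForm (H k)) → RationalMap G (F a) P → FiniteOff G P H →
        ∀ v : ℙ ℂ (Fin (m + 1) → ℂ), v.rep ∈ Cone G → (∃ k, eval v.rep (H k) ≠ 0) →
        (∀ h ∈ S, ∀ w, ∀ b : ℂ, ratVal P v.rep ≠ b • (h w).rep) →
        ∀ ε : ℝ, 0 < ε → ∃ c : ℝ, 0 < c ∧ ∀ q : ℙ ℂ (Fin (m + 1) → ℂ), q.rep ∈ Cone G →
          ε ≤ projDist v q → ENNReal.ofReal c ≤ kobayashi (Cone G) v q) ∧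
    ∀ (m : ℕ) (ι' : Type) (G : ι' → MvPolynomial (Fin (m + 1)) ℂ)
      (P : ∀ a, Fin (n a + 1) → MvPolynomial (Fin (m + 1)) ℂ), (∀ j, IsForm (G j)) →
      (∀ a, RationalMap G (F a) (P a)) → IrreducibleSet G →
      (∀ a, TwoDimensional G (P a) ∨ ((∃ y ∈ Cone G, ratVal (P a) y ≠ 0) ∧
        ∀ f, HolIn (F a) f → ∀ z w, f z = f w)) → JointlyFinite G P →
      ∃ T : MvPolynomial (Fin (m + 1)) ℂ, IsForm T ∧ (∃ y ∈ Cone G, eval y T ≠ 0) ∧
        ∀ v : ℙ ℂ (Fin (m + 1) → ℂ), v.rep ∈ Cone G → eval v.rep T ≠ 0 →
        ∀ ε : ℝ, 0 < ε → ∃ c : ℝ, 0 < c ∧ ∀ q : ℙ ℂ (Fin (m + 1) → ℂ), q.rep ∈ Cone G →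
          ε ≤ projDist v q → ENNReal.ofReal c ≤ kobayashi (Cone G) v q := by
  choose hX hη hΦ using hX
  choose ν κ η hκ hν hη hh using hη
  choose Φ hΦ hnd hr using hΦ
  refine ⟨fun a => ?_, fun m ι' G P hGf hP hirr hdim hgf => ?_⟩
  · obtain ⟨S, h1, h2, h3⟩ := gen_pt (hX a) (hη a) (hν a) (hh a) (hΦ a) (hnd a) (hr a)
    exact ⟨S, fun h hS => ⟨(h1 h hS).1, (h1 h hS).2.1,
      nonconst_of_speed (hX a) (hΦ a) (hnd a) (h1 h hS).1 (h1 h hS).2.2⟩, h2, h3⟩
  · obtain ⟨T, h1, h2, h3⟩ := joint_kob hX hη hν hh hΦ hnd hr hGf hP hirr hdim hgf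
    exact ⟨T, h1, h2, fun v _ hv => h3 v hv⟩
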