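import Pool.Agent.H33.NFin
import Pool.Graph.R_pool_sql_team_seeded_63374d34.N155.B.Rat

/-!
Maps from complex tori and Kobayashi hyperbolicity for projective manifolds with positive 2-forms
(for surfaces: with ample canonical bundle) and a metric of nonpositive curvature.
-/

set_option autoImplicit false

open LinearAlgebra.Projectivization Pool.Agent.W602.GT Pool.Agent.N155.BB Pool.Agent.H33

/-- Let `X = {F = 0}` be a projective manifold of dimension `d`, and `Z = {G = 0}` a projective set
such that the holomorphic maps from the complex plane to `X ∩ Z` are constant or factor through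
rational curves (for example `Z` empty). Suppose that the 2-forms on `X` are positive outside `Z`
(for example `Z` empty and `Λ² Ω` ample; if `d = 2`, this means that the canonical bundle is ample).
Let the `Φ q` be complex Finsler metrics of nonpositive curvature on `X`, possibly degenerate; for
example Hermitian metrics with nonpositive holomorphic sectional curvature.

(1) Every holomorphic map `f` from the complex plane to `X` with bounded derivative has constant
speed for all `Φ q`. It is doubly periodic, or its speed is zero for all `Φ q`.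

(2) Suppose that the maps of bounded derivative with speed zero for all `Φ q` are constant. If every
holomorphic map from a one-dimensional complex torus to `X` is constant, then `X` is Kobayashi
hyperbolic.

(3) If one of the metrics `Φ q` is nondegenerate, there are finitely many doubly periodic holomorphic
maps `h` from the plane to `X`, of constant positive speed, such that all nonconstant holomorphic
maps `f` from the plane to `X` which are doubly periodic, or have bounded derivative, or for which the
area of the image of the disc of radius `r` is at most `B r ^ 2` for some `B` and arbitrarily large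
`r`, are `f z = h (a z + b)` for some `h` in the list and some numbers `a ≠ 0`, `b`. If there are no
such `h`, then `X` is Kobayashi hyperbolic. -/
theorem Pool.Agent.Results.MP_45e720_ag.NonpositiveCurvature.result {n d : ℕ} {ι ι' : Type}
    (F : ι → MvPolynomial (Fin (n + 1)) ℂ) (hX : ProjManifold F d)
    (G : ι' → MvPolynomial (Fin (n + 1)) ℂ) (hG : ∀ i, IsForm (G i))
    (hZ : RationalCurvesOnly F G) {κ : Type}
    (η : κ → (Fin (n + 1) → ℂ) → (Fin (n + 1) → ℂ) → (Fin (n + 1) → ℂ) → ℂ)
    (hη : PositiveTwoForms (Cone F) (Cone G) d η) {θ : Type}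
    (Φ : θ → (Fin (n + 1) → ℂ) → (Fin (n + 1) → ℂ) → ℝ)
    (hΦ : ∀ q, NonposMetric (Cone F) d (Φ q)) :
    (∀ f, HolIn F f → ∀ C, DerBetween 0 C f →
      (∀ q, ∃ c : ℝ, 0 ≤ c ∧ HasSpeed (Φ q) c f) ∧
      (DoublyPeriodic f ∨ ∀ q, HasSpeed (Φ q) 0 f)) ∧
    ((∀ f, HolIn F f → ∀ C, DerBetween 0 C f → (∀ q, HasSpeed (Φ q) 0 f) → ∀ z w, f z = f w) →
      (∀ f, HolIn F f → DoublyPeriodic f → ∀ z w, f z = f w) → KobayashiHyperbolic F) ∧
    ∀ q, Nondegenerate (Cone F) d (Φ q) →
      ∃ S : Finset (ℂ → ℙ ℂ (Fin (n + 1) → ℂ)),
        (∀ h ∈ S, HolIn F h ∧ DoublyPeriodic h ∧ ∃ c : ℝ, 0 < c ∧ HasSpeed (Φ q) c h) ∧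
        (∀ f, HolIn F f → (¬ ∀ z w, f z = f w) →
          (DoublyPeriodic f ∨ (∃ C, DerBetween 0 C f) ∨ SlowArea f) →
          ∃ h ∈ S, ∃ a b : ℂ, a ≠ 0 ∧ ∀ z, f z = h (a * z + b)) ∧
        (S = ∅ → KobayashiHyperbolic F) := by
  refine ⟨fun f hf C hb => periodic_or_null hX hG hη (noBC_of hZ) hΦ hf hb,
    fun hnull hell => ?_, fun q hq => nondegenerate_geo hX hG hη (noBC_of hZ) (hΦ q) hq⟩
  refine kob_of_brody hX.form fun f hf C hb => ?_
  rcases (periodic_or_null hX hG hη (noBC_of hZ) hΦ hf hb).2 with h | h
  · exact hell f hf h
  · exact hnull f hf C hb h
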