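import Pool.Agent.H33.KE

/-!
The Kobayashi pseudodistance of projective manifolds with positive 2-forms (for surfaces: of general
type) and a Hermitian metric of nonpositive holomorphic sectional curvature.
-/

set_option autoImplicit false

open LinearAlgebra.Projectivization MvPolynomial Topology
open Pool.Agent.W602.GT Pool.Agent.N155.BB Pool.Agent.H33
open Pool.Agent.N154.GG (kobayashi projDist)

/-- Let `X = {F = 0}` be a projective manifold of dimension `d` whose 2-forms are positive: there are
finitely many sections of `Sym ^ ν (Λ² Ω) ⊗ O (-1)`, for some `ν > 0`, whose values at `(v ∧ w) ^ ν`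
are not all zero for linearly independent tangent vectors `v`, `w`. This holds if `Λ² Ω` is ample, and
if `d = 2`, it holds if the canonical bundle is ample. Let `Φ` be a metric on `X` whose holomorphic
sectional curvature is nonpositive; here `Φ` is a Hermitian metric with twice continuously
differentiable coefficients, or more generally a uniformly convex complex Finsler metric. (A surface
of general type with such a metric does not contain rational curves, so its canonical bundle is
ample, and the theorem applies.)

Then there is a finite set `S` of doubly periodic holomorphic maps `h` from the complex plane to `X`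
with `|h'| = 1` with the following properties.

* The Kobayashi pseudodistance of two points of `X` is zero if and only if the points are equal or
  joined by a chain of the (elliptic) curves `h (ℂ)`, `h` in `S`.
* Let `Z` be the union of these curves. For every `ε > 0`, the Kobayashi pseudodistance of `p` and `q`
  is at least `c R ^ ε min (dist (p, q), R)` with a number `c > 0` which depends only on `ε`, if
  `R ≤ 1` is at most the distance from `p` to `Z`.
* If `d ≥ 2`, then `X` is pseudo-Kobayashi hyperbolic: the Kobayashi pseudodistance of two different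
  points of `X`, not both in the proper algebraic subset `X ∩ {E = 0}`, is positive; here, for a given
  point `x` of `X`, the form `E` can be chosen so that it does not vanish identically on `X` near
  `x`. -/
theorem Pool.Agent.Results.MP_45e720_ag.PseudoKobayashi.result {n d ν : ℕ} {ι κ : Type}
    [Finite κ] (F : ι → MvPolynomial (Fin (n + 1)) ℂ) (hX : ProjManifold F d)
    (η : κ → (Fin (n + 1) → ℂ) → (Fin (n + 1) → ℂ) → (Fin (n + 1) → ℂ) → ℂ)
    (hη : PositiveTwoForms (Cone F) ∅ d η) (hν : ν ≠ 0) (hh : HomForms (Cone F) ν η)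
    (Φ : (Fin (n + 1) → ℂ) → (Fin (n + 1) → ℂ) → ℝ) (hΦ : NonposMetric (Cone F) d Φ)
    (hnd : Nondegenerate (Cone F) d Φ)
    (hr : HermitianMetric (Cone F) d Φ ∨ UniformlyConvex (Cone F) d Φ) :
    ∃ S : Finset (ℂ → ℙ ℂ (Fin (n + 1) → ℂ)),
      (∀ h ∈ S, HolIn F h ∧ DoublyPeriodic h ∧ HasSpeed Φ 1 h) ∧
      (∀ p q : ℙ ℂ (Fin (n + 1) → ℂ), p.rep ∈ Cone F → q.rep ∈ Cone F →
        (kobayashi (Cone F) p q = 0 ↔ Joined S p q)) ∧
      (∀ ε : ℝ, 0 < ε → ∃ c : ℝ, 0 < c ∧ ∀ p q : ℙ ℂ (Fin (n + 1) → ℂ), p.rep ∈ Cone F →
        q.rep ∈ Cone F → ∀ R : ℝ, 0 ≤ R → R ≤ 1 → (∀ h ∈ S, ∀ z, R ≤ projDist p (h z)) →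
        ENNReal.ofReal (c * R ^ ε * min (projDist p q) R) ≤ kobayashi (Cone F) p q) ∧
      (2 ≤ d → ∀ x ∈ Cone F, ∃ E : MvPolynomial (Fin (n + 1)) ℂ, IsForm E ∧
        (¬ ∀ᶠ y in 𝓝[Cone F] x, eval y E = 0) ∧
        ∀ p q : ℙ ℂ (Fin (n + 1) → ℂ), p.rep ∈ Cone F → q.rep ∈ Cone F → p ≠ q →
          ¬ (eval p.rep E = 0 ∧ eval q.rep E = 0) → 0 < kobayashi (Cone F) p q) :=
  kob hX hη hν hh hΦ hnd hr
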